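import Pool.Agent.Helper73.RS.St

/-! Project RS, module COR: the correlation inequality for two colours. -/

set_option autoImplicit false

namespace Pool.Agent.Helper66.RS

open Pool.Agent.Helper73.RS
open Filter Topology

private theorem add2 {m : W} (hm : IsMean m) {F G : ℕ → ℕ → ℝ} (hF : Bd (fun q : ℕ × ℕ => F q.1 q.2))
    (hG : Bd (fun q : ℕ × ℕ => G q.1 q.2)) :
    m (fun x => m (fun p => F x p + G x p)) = m (fun x => m (F x)) + m (fun x => m (G x)) := by
  have h1 : (fun x => m (fun p => F x p + G x p)) = fun x => m (F x) + m (G x) := by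
    funext x
    exact hm.add _ _ (hF.comp fun p : ℕ => (x, p)) (hG.comp fun p : ℕ => (x, p))
  rw [h1, hm.add _ _ (hm.bd_int hF) (hm.bd_int hG)]

private theorem smul2 {m : W} (hm : IsMean m) (r : ℝ) {F : ℕ → ℕ → ℝ}
    (hF : Bd (fun q : ℕ × ℕ => F q.1 q.2)) :
    m (fun x => m (fun p => r * F x p)) = r * m (fun x => m (F x)) := by
  have h1 : (fun x => m (fun p => r * F x p)) = fun x => r * m (F x) := by
    funext x
    exact hm.smul r _ (hF.comp fun p : ℕ => (x, p))
  rw [h1, hm.smul r _ (hm.bd_int hF)]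

private theorem mono2 {m : W} (hm : IsMean m) {F G : ℕ → ℕ → ℝ} (hF : Bd (fun q : ℕ × ℕ => F q.1 q.2))
    (hG : Bd (fun q : ℕ × ℕ => G q.1 q.2)) (h : ∀ x p, F x p ≤ G x p) :
    m (fun x => m (F x)) ≤ m (fun x => m (G x)) :=
  hm.mono (hm.bd_int hF) (hm.bd_int hG) fun x =>
    hm.mono (hF.comp fun p : ℕ => (x, p)) (hG.comp fun p : ℕ => (x, p)) (h x)

theorem holds_COR : StCOR := by
  intro m hg hmm hD c hc hyp
  have hm := hg.mean
  have bc : Bd c := ⟨1, fun x => by rcases hc x with h | h <;> rw [h] <;> norm_num⟩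
  -- idempotency
  have idem : ∀ g : ℕ → ℝ, m (fun a => m (fun b => g (a + b))) = m g := by
    intro g
    have h1 := congrFun hmm g
    rw [mul_def] at h1
    exact h1
  have bcs : Bd (fun q : ℕ × ℕ => c (q.1 + q.2)) := bc.comp fun q : ℕ × ℕ => q.1 + q.2
  have bcm : Bd (fun q : ℕ × ℕ => c (q.1 * q.2)) := bc.comp fun q : ℕ × ℕ => q.1 * q.2
  have bc1 : Bd (fun q : ℕ × ℕ => c q.1) := bc.comp fun q : ℕ × ℕ => q.1
  -- splitting the hypothesis
  have b1 : Bd (fun q : ℕ × ℕ => c q.1 * c (q.1 + q.2)) := bc1.mul bcs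
  have b2 : Bd (fun q : ℕ × ℕ => c (q.1 + q.2) * c (q.1 * q.2)) := bcs.mul bcm
  have b3 : Bd (fun q : ℕ × ℕ => c q.1 * c (q.1 * q.2)) := bc1.mul bcm
  have b0 : Bd (fun _ : ℕ × ℕ => (1 : ℝ)) := Bd.const 1
  have e0 : m (fun _ => m (fun _ => (1 : ℝ))) = 1 := by
    rw [hm.one, hm.const]
  have eh : m (fun x => m (fun p => 1 + c x * c (x + p) + c (x + p) * c (x * p) + c x * c (x * p))) =
      1 + m (fun x => m (fun p => c x * c (x + p))) + m (fun x => m (fun p => c (x + p) * c (x * p))) +
        m (fun x => m (fun p => c x * c (x * p))) := by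
    rw [add2 hm (F := fun x p => 1 + c x * c (x + p) + c (x + p) * c (x * p)) (G := fun x p => c x * c (x * p))
      ((b0.add b1).add b2) b3]
    rw [add2 hm (F := fun x p => 1 + c x * c (x + p)) (G := fun x p => c (x + p) * c (x * p)) (b0.add b1) b2]
    rw [add2 hm (F := fun _ _ => 1) (G := fun x p => c x * c (x + p)) b0 b1, e0]
  have eg : m (fun x => m (fun p => 1 + c (x + p) * c (x * p))) =
      1 + m (fun x => m (fun p => c (x + p) * c (x * p))) := by
    rw [add2 hm (F := fun _ _ => 1) (G := fun x p => c (x + p) * c (x * p)) b0 b2, e0]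
  rw [eh] at hyp
  rw [eg]
  -- the third term
  have r3 : 0 ≤ m (fun x => m (fun p => c x * c (x * p))) := by
    have h1 : m (fun x => m (fun p => c x * c (x * p))) = m (fun x => m c * c x) := by
      apply hg.congr_pos (hm.bd_int b3) (bc.smul _)
      intro x hx
      have h2 : m (fun p => c x * c (x * p)) = c x * m (fun p => c (x * p)) :=
        hm.smul (c x) _ (bc.comp fun p => x * p)
      rw [h2, hD x hx c bc]
      ring
    rw [h1, hm.smul _ _ bc]
    exact mul_self_nonneg _
  -- the first term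
  obtain ⟨u, hu⟩ : ∃ u : ℕ → ℝ, u = fun x => m (fun p => c (x + p)) := ⟨_, rfl⟩
  have hux : ∀ x, m (fun p => c (x + p)) = u x := fun x => by rw [hu]
  have bu : Bd u := by
    rw [hu]
    exact hm.bd_int bcs
  have bus : Bd (fun q : ℕ × ℕ => u (q.1 + q.2)) := bu.comp fun q : ℕ × ℕ => q.1 + q.2
  have bu1 : Bd (fun q : ℕ × ℕ => u q.1) := bu.comp fun q : ℕ × ℕ => q.1
  have hus : ∀ x, m (fun y => u (x + y)) = u x := by
    intro x
    have h1 := idem (fun z => c (x + z))
    rw [hux x] at h1
    rw [← h1]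
    congr 1
    funext y
    rw [← hux (x + y)]
    simp only [add_assoc]
  obtain ⟨q, hq⟩ : ∃ q : ℝ, q = m (fun x => u x * u x) := ⟨_, rfl⟩
  have hq0 : 0 ≤ q := by
    rw [hq]
    exact hm.nonneg _ (bu.mul bu) fun x => mul_self_nonneg _
  have t1 : m (fun x => m (fun y => u (x + y) * u (x + y))) = q := by
    rw [hq]
    exact idem (fun z => u z * u z)
  have t2 : m (fun x => m (fun y => u x * u (x + y))) = q := by
    rw [hq]
    congr 1
    funext x
    rw [hm.smul (u x) _ (bu.comp fun y => x + y), hus x]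
  have t3 : m (fun x => m (fun _ => u x * u x)) = q := by
    rw [hq]
    congr 1
    funext x
    rw [hm.const]
  have bd1 : Bd (fun q : ℕ × ℕ => u (q.1 + q.2) * u (q.1 + q.2)) := bus.mul bus
  have bd2 : Bd (fun q : ℕ × ℕ => u q.1 * u (q.1 + q.2)) := bu1.mul bus
  have bd3 : Bd (fun q : ℕ × ℕ => u q.1 * u q.1) := bu1.mul bu1
  have hΔ : m (fun x => m (fun y => (u (x + y) - u x) ^ 2)) = 0 := by
    have h1 : (fun x => m (fun y => (u (x + y) - u x) ^ 2)) =
        fun x => m (fun y => (u (x + y) * u (x + y) + (-2) * (u x * u (x + y))) + u x * u x) := by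
      funext x
      congr 1
      funext y
      ring
    rw [h1, add2 hm (F := fun x y => u (x + y) * u (x + y) + (-2) * (u x * u (x + y))) (G := fun x _ => u x * u x)
      (bd1.add (bd2.smul (-2))) bd3]
    rw [add2 hm (F := fun x y => u (x + y) * u (x + y)) (G := fun x y => (-2) * (u x * u (x + y)))
      bd1 (bd2.smul (-2))]
    rw [smul2 hm (-2) (F := fun x y => u x * u (x + y)) bd2, t1, t2, t3]
    ring
  have e1 : m (fun x => m (fun p => c x * c (x + p))) = m (fun x => c x * u x) := by
    congr 1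
    funext x
    rw [hm.smul (c x) _ (bc.comp fun p => x + p), hux x]
  have e2 : m (fun x => c x * u x) = m (fun x => m (fun y => c (x + y) * u (x + y))) :=
    (idem (fun z => c z * u z)).symm
  have e3 : m (fun x => m (fun y => u x * c (x + y))) = q := by
    rw [hq]
    congr 1
    funext x
    rw [hm.smul (u x) _ (bc.comp fun y => x + y), hux x]
  have bd4 : Bd (fun q : ℕ × ℕ => u q.1 * c (q.1 + q.2)) := bu1.mul bcs
  have bd5 : Bd (fun q : ℕ × ℕ => c (q.1 + q.2) * (u (q.1 + q.2) - u q.1)) := bcs.mul (bus.sub bu1)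
  have bd6 : Bd (fun q : ℕ × ℕ => (u (q.1 + q.2) - u q.1) ^ 2) := by
    have h1 := (bus.sub bu1).mul (bus.sub bu1)
    simpa only [pow_two] using h1
  have r1 : ∀ ε : ℝ, 0 < ε → -ε ≤ m (fun x => m (fun p => c x * c (x + p))) := by
    intro ε hε
    rw [e1, e2]
    have h1 : m (fun x => m (fun y => c (x + y) * u (x + y))) =
        q + m (fun x => m (fun y => c (x + y) * (u (x + y) - u x))) := by
      rw [← e3, ← add2 hm (F := fun x y => u x * c (x + y)) (G := fun x y => c (x + y) * (u (x + y) - u x)) bd4 bd5]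
      congr 1
      funext x
      congr 1
      funext y
      ring
    have h2 : m (fun x => m (fun y => -ε + (-(1 / ε)) * (u (x + y) - u x) ^ 2)) ≤
        m (fun x => m (fun y => c (x + y) * (u (x + y) - u x))) := by
      apply mono2 hm (F := fun x y => -ε + (-(1 / ε)) * (u (x + y) - u x) ^ 2)
        (G := fun x y => c (x + y) * (u (x + y) - u x)) ((Bd.const _).add (bd6.smul _)) bd5
      intro x y
      have h3 : -|u (x + y) - u x| ≤ c (x + y) * (u (x + y) - u x) := by
        rcases hc (x + y) with h | h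
        · rw [h, one_mul]
          exact neg_abs_le _
        · rw [h]
          have := le_abs_self (u (x + y) - u x)
          linarith
      have h4 : |u (x + y) - u x| ≤ ε + (1 / ε) * (u (x + y) - u x) ^ 2 := by
        rw [← sq_abs (u (x + y) - u x)]
        generalize |u (x + y) - u x| = v
        have h6 : ε + (1 / ε) * v ^ 2 - v = ((v - ε) ^ 2 + v * ε) / ε := by
          field_simp
          ring
        rcases le_or_gt 0 v with hv | hv
        · have h7 : 0 ≤ ((v - ε) ^ 2 + v * ε) / ε := by positivity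
          linarith
        · have h8 : 0 ≤ (1 / ε) * v ^ 2 := by positivity
          linarith
      linarith
    have h9 : m (fun x => m (fun y => -ε + (-(1 / ε)) * (u (x + y) - u x) ^ 2)) = -ε := by
      rw [add2 hm (F := fun _ _ => -ε) (G := fun x y => (-(1 / ε)) * (u (x + y) - u x) ^ 2) (Bd.const _)
        (bd6.smul _), smul2 hm (-(1 / ε)) (F := fun x y => (u (x + y) - u x) ^ 2) bd6, hΔ, mul_zero, add_zero,
        hm.const, hm.const]
    rw [h9] at h2
    rw [h1]
    linarith
  have r1' : 0 ≤ m (fun x => m (fun p => c x * c (x + p))) := by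
    by_contra h
    push Not at h
    have := r1 (-(m (fun x => m (fun p => c x * c (x + p)))) / 2) (by linarith)
    linarith
  linarith

end Pool.Agent.Helper66.RS
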