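import Pool.Agent.Helper73.RS.St

/-! Project RS, module EXT: from an average to an ultrafilter. -/

set_option autoImplicit false

namespace Pool.Agent.Helper66.RS

open Pool.Agent.Helper73.RS
open Filter Topology

theorem holds_EXT : StEXT := by
  intro hWOU hWIN hITS m hg G hpos
  have hm := hg.mean
  obtain ⟨g, hgd⟩ : ∃ g : ℕ → ℝ, g = fun x => m (ind (G x)) := ⟨_, rfl⟩
  have hgx : ∀ x, m (ind (G x)) = g x := fun x => by rw [hgd]
  have hg0 : ∀ x, 0 ≤ g x := fun x => by rw [← hgx]; exact hm.ind_nonneg _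
  have hg1 : ∀ x, g x ≤ 1 := fun x => by rw [← hgx]; exact hm.ind_le_one _
  have hgb : Bd g := Bd.of_nonneg_le hg0 hg1
  rw [← hgd] at hpos
  obtain ⟨η, hη⟩ : ∃ η : ℝ, η = m g := ⟨_, rfl⟩
  rw [← hη] at hpos
  obtain ⟨A, hA⟩ : ∃ A : Set ℕ, A = {x | η / 2 ≤ g x} := ⟨_, rfl⟩
  have hAm : ∀ x, x ∈ A ↔ η / 2 ≤ g x := fun x => by rw [hA]; rfl
  have hAl : Large A := by
    by_contra hcon
    have h1 := hg.large A hcon
    have h2 : m g ≤ m (fun x => ind A x + η / 2) := by
      refine hm.mono hgb ((Bd.ind A).add (Bd.const _)) fun x => ?_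
      by_cases hx : x ∈ A
      · rw [ind_of_mem hx]
        linarith [hg1 x]
      · rw [ind_of_notMem hx]
        rw [hAm, not_le] at hx
        linarith
    rw [hm.add _ _ (Bd.ind A) (Bd.const _), h1, hm.const, ← hη] at h2
    linarith
  obtain ⟨α, hα, hs⟩ := hWOU A hAl
  choose s hs using hs
  obtain ⟨w, hw⟩ : ∃ w : ℕ → ℝ, w = fun L => ∑ i ∈ Finset.range L, ind A (s L + i) := ⟨_, rfl⟩
  have hwL : ∀ L, w L = ∑ i ∈ Finset.range L, ind A (s L + i) := fun L => by rw [hw]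
  obtain ⟨h, hh⟩ : ∃ h : ℕ → ℕ → ℝ, h = fun L p => ∑ i ∈ Finset.range L, ind A (s L + i) * ind (G (s L + i)) p :=
    ⟨_, rfl⟩
  have hhL : ∀ L p, h L p = ∑ i ∈ Finset.range L, ind A (s L + i) * ind (G (s L + i)) p :=
    fun L p => by rw [hh]
  obtain ⟨D, hD⟩ : ∃ D : ℕ → Set ℕ, D = fun L => {p | η / 4 * w L ≤ h L p} := ⟨_, rfl⟩
  have hDm : ∀ L p, p ∈ D L ↔ η / 4 * w L ≤ h L p := fun L p => by rw [hD]; rfl
  have hle : ∀ L p, h L p ≤ w L := by
    intro L p
    rw [hhL, hwL]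
    refine Finset.sum_le_sum fun i _ => ?_
    have h1 := ind_nonneg A (s L + i)
    have h2 := ind_le_one (G (s L + i)) p
    nlinarith
  have hh0 : ∀ L p, 0 ≤ h L p := by
    intro L p
    rw [hhL]
    exact Finset.sum_nonneg fun i _ => mul_nonneg (ind_nonneg _ _) (ind_nonneg _ _)
  have hw0 : ∀ L, 0 ≤ w L := by
    intro L
    rw [hwL]
    exact Finset.sum_nonneg fun i _ => ind_nonneg _ _
  have hbd : ∀ L, Bd (h L) := fun L => Bd.of_nonneg_le (hh0 L) (hle L)
  have hDm4 : ∀ L, 1 ≤ L → η / 4 ≤ m (ind (D L)) := by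
    intro L hL
    have hwp : 0 < w L := by
      rw [hwL]
      refine lt_of_lt_of_le ?_ (hs L)
      have : (0 : ℝ) < L := by exact_mod_cast hL
      positivity
    have h1 : m (h L) = ∑ i ∈ Finset.range L, ind A (s L + i) * g (s L + i) := by
      have h2 : h L = fun p => ∑ i ∈ Finset.range L, ind A (s L + i) * ind (G (s L + i)) p := by
        funext p
        exact hhL L p
      rw [h2, hm.sum (Finset.range L) (f := fun i p => ind A (s L + i) * ind (G (s L + i)) p)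
        (fun i _ => (Bd.ind _).smul _)]
      refine Finset.sum_congr rfl fun i _ => ?_
      rw [hm.smul _ _ (Bd.ind _), hgx]
    have h2 : η / 2 * w L ≤ m (h L) := by
      rw [h1, hwL, Finset.mul_sum]
      refine Finset.sum_le_sum fun i _ => ?_
      by_cases hx : s L + i ∈ A
      · rw [ind_of_mem hx]
        rw [hAm] at hx
        linarith
      · rw [ind_of_notMem hx]
        simp
    have h3 : m (h L) ≤ m (fun p => w L * ind (D L) p + η / 4 * w L) := by
      refine hm.mono (hbd L) (((Bd.ind _).smul _).add (Bd.const _)) fun p => ?_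
      by_cases hx : p ∈ D L
      · rw [ind_of_mem hx]
        have := hle L p
        have h4 : 0 ≤ η / 4 * w L := by positivity
        linarith
      · rw [ind_of_notMem hx]
        rw [hDm, not_le] at hx
        linarith
    rw [hm.add _ _ ((Bd.ind _).smul _) (Bd.const _), hm.smul _ _ (Bd.ind _), hm.const] at h3
    have h4 : η / 4 * w L ≤ m (ind (D L)) * w L := by nlinarith
    exact le_of_mul_le_mul_right h4 hwp
  obtain ⟨P, hP, hinf⟩ := hITS m hm (fun L => D (L + 1)) (η / 4) (by linarith) (fun n => hDm4 (n + 1) (by omega))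
  refine ⟨P, hP, ?_⟩
  refine hWIN {x | G x ∈ P} (η / 4 * α) (by positivity) fun N => ?_
  obtain ⟨n, hn, hNn⟩ := hinf.exists_gt N
  have hDP : D (n + 1) ∈ P := hn
  refine ⟨n + 1, s (n + 1), by omega, ?_⟩
  have hE : {p | ∀ i ∈ Finset.range (n + 1), (p ∈ G (s (n + 1) + i) ↔ G (s (n + 1) + i) ∈ P)} ∈ P := by
    have h1 : {p | ∀ i ∈ Finset.range (n + 1), (p ∈ G (s (n + 1) + i) ↔ G (s (n + 1) + i) ∈ P)} =
        ⋂ i ∈ Finset.range (n + 1), {p | (p ∈ G (s (n + 1) + i) ↔ G (s (n + 1) + i) ∈ P)} := by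
      ext p
      simp only [Set.mem_ofPred_eq, Set.mem_iInter]
    rw [h1]
    refine (Filter.biInter_finset_mem (Finset.range (n + 1))).mpr fun i _ => ?_
    by_cases h2 : G (s (n + 1) + i) ∈ P
    · filter_upwards [h2] with p hp
      exact ⟨fun _ => h2, fun _ => hp⟩
    · have h3 : (G (s (n + 1) + i))ᶜ ∈ P := Ultrafilter.compl_mem_iff_notMem.2 h2
      filter_upwards [h3] with p hp
      exact ⟨fun h4 => absurd h4 hp, fun h4 => absurd h4 h2⟩
  obtain ⟨p, hp1, hp2⟩ := Ultrafilter.nonempty_of_mem (Filter.inter_mem hDP hE)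
  rw [hDm, hhL] at hp1
  have h1 : ∑ i ∈ Finset.range (n + 1), ind A (s (n + 1) + i) * ind (G (s (n + 1) + i)) p ≤
      ∑ i ∈ Finset.range (n + 1), ind {x | G x ∈ P} (s (n + 1) + i) := by
    refine Finset.sum_le_sum fun i hi => ?_
    have h2 := hp2 i hi
    have h3 := ind_nonneg A (s (n + 1) + i)
    have h4 := ind_le_one A (s (n + 1) + i)
    by_cases h5 : G (s (n + 1) + i) ∈ P
    · rw [ind_of_mem (h2.mpr h5), ind_of_mem (show s (n + 1) + i ∈ {x | G x ∈ P} from h5)]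
      linarith
    · rw [ind_of_notMem (fun h6 => h5 (h2.mp h6)), mul_zero]
      exact ind_nonneg _ _
  have h2 := hs (n + 1)
  rw [← hwL] at h2
  have h3 : η / 4 * (α * ((n + 1 : ℕ) : ℝ)) ≤ η / 4 * w (n + 1) := by
    apply mul_le_mul_of_nonneg_left h2
    positivity
  calc η / 4 * α * ((n + 1 : ℕ) : ℝ) = η / 4 * (α * ((n + 1 : ℕ) : ℝ)) := by ring
    _ ≤ η / 4 * w (n + 1) := h3
    _ ≤ _ := hp1
    _ ≤ _ := h1

end Pool.Agent.Helper66.RS
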