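import Pool.Agent.Helper73.RS.St

/-! Project RS, module MKF: Markov-Kakutani for the dilations. -/

set_option autoImplicit false

namespace Pool.Agent.Helper66.RS

open Pool.Agent.Helper73.RS
open Filter Topology

private theorem eval_cont (f : ℕ → ℝ) : Continuous (fun m : W => m f) :=
  (continuous_apply f : Continuous (fun m : (ℕ → ℝ) → ℝ => m f))

private theorem dil_cont (n : ℕ) : Continuous (dil n) := by
  have h : ∀ f : ℕ → ℝ, Continuous (fun m : W => dil n m f) := by
    intro f
    by_cases hf : Bd f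
    · have h1 : (fun m : W => dil n m f) = fun m : W => m (fun x => f (n * x)) := by
        funext m
        exact dil_apply n m hf
      rw [h1]
      exact eval_cont _
    · have h1 : (fun m : W => dil n m f) = fun _ : W => 0 := by
        funext m
        exact if_neg hf
      rw [h1]
      exact continuous_const
  exact continuous_pi h

private theorem dil_comm (k n : ℕ) (m : W) : dil k (dil n m) = dil n (dil k m) := by
  funext f
  by_cases hf : Bd f
  · rw [dil_apply k _ hf, dil_apply n _ hf, dil_apply n m (hf.comp fun x => k * x),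
      dil_apply k m (hf.comp fun x => n * x)]
    congr 1
    funext x
    congr 1
    ring
  · have h1 : dil k (dil n m) f = 0 := if_neg hf
    have h2 : dil n (dil k m) f = 0 := if_neg hf
    rw [h1, h2]

private def KN (K : Set W) (N : ℕ) : Set W := {m | m ∈ K ∧ ∀ n, 1 ≤ n → n ≤ N → dil n m = m}

private theorem KN_closed (K : Set W) (hK : IsCompact K) (N : ℕ) : IsClosed (KN K N) := by
  have h1 : KN K N = K ∩ ⋂ n : ℕ, {m | 1 ≤ n → n ≤ N → dil n m = m} := by
    ext m
    simp only [KN, Set.mem_ofPred_eq, Set.mem_inter_iff, Set.mem_iInter]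
  rw [h1]
  refine hK.isClosed.inter (isClosed_iInter fun n => ?_)
  by_cases h2 : 1 ≤ n
  · by_cases h3 : n ≤ N
    · have h4 : {m : W | 1 ≤ n → n ≤ N → dil n m = m} = {m : W | dil n m = m} := by
        ext m
        simp only [Set.mem_ofPred_eq]
        exact ⟨fun h => h h2 h3, fun h _ _ => h⟩
      rw [h4]
      exact isClosed_eq (dil_cont n) continuous_id
    · have h4 : {m : W | 1 ≤ n → n ≤ N → dil n m = m} = Set.univ := by
        ext m
        simp only [Set.mem_ofPred_eq, Set.mem_univ, iff_true]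
        exact fun _ h => absurd h h3
      rw [h4]
      exact isClosed_univ
  · have h4 : {m : W | 1 ≤ n → n ≤ N → dil n m = m} = Set.univ := by
      ext m
      simp only [Set.mem_ofPred_eq, Set.mem_univ, iff_true]
      exact fun h => absurd h h2
    rw [h4]
    exact isClosed_univ

private theorem KN_step (K : Set W) (hK : IsCompact K) (hmean : ∀ m ∈ K, IsMean m)
    (hdil : ∀ (n : ℕ) (m : W), 1 ≤ n → m ∈ K → dil n m ∈ K)
    (hav : ∀ (v : ℕ → W) (N : ℕ), (∀ i, v i ∈ K) →
      (fun f => (∑ i ∈ Finset.range (N + 1), v i f) / (N + 1) : W) ∈ K)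
    (N : ℕ) (hN : (KN K N).Nonempty) : (KN K (N + 1)).Nonempty := by
  obtain ⟨m0, hm0, hm0'⟩ := hN
  obtain ⟨v, hv⟩ : ∃ v : ℕ → W, v = fun i => (dil (N + 1))^[i] m0 := ⟨_, rfl⟩
  have hv0 : v 0 = m0 := by rw [hv]; rfl
  have hvs : ∀ i, v (i + 1) = dil (N + 1) (v i) := by
    intro i
    rw [hv]
    exact Function.iterate_succ_apply' _ _ _
  have hvK : ∀ i, v i ∈ K := by
    intro i
    induction i with
    | zero => rw [hv0]; exact hm0
    | succ i ih => rw [hvs]; exact hdil _ _ (by omega) ih
  have hvk : ∀ k, 1 ≤ k → k ≤ N → ∀ i, dil k (v i) = v i := by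
    intro k hk1 hk2 i
    induction i with
    | zero => rw [hv0]; exact hm0' k hk1 hk2
    | succ i ih => rw [hvs, dil_comm, ih]
  obtain ⟨w, hw⟩ : ∃ w : ℕ → W, w = fun M => (fun f => (∑ i ∈ Finset.range (M + 1), v i f) / (M + 1) : W) :=
    ⟨_, rfl⟩
  have hwf : ∀ M f, w M f = (∑ i ∈ Finset.range (M + 1), v i f) / (M + 1) := by
    intro M f
    rw [hw]
  have hwK : ∀ M, w M ∈ K := by
    intro M
    rw [hw]
    exact hav v M hvK
  have hwk : ∀ k, 1 ≤ k → k ≤ N → ∀ M, dil k (w M) = w M := by
    intro k hk1 hk2 M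
    refine IsMean.ext' (isMean_dil k (hmean _ (hwK M))) (hmean _ (hwK M)) fun f hf => ?_
    rw [dil_apply k _ hf, hwf, hwf]
    congr 1
    refine Finset.sum_congr rfl fun i _ => ?_
    rw [← dil_apply k (v i) hf, hvk k hk1 hk2 i]
  have hwN : ∀ M, w M ∈ KN K N := fun M => ⟨hwK M, fun k hk1 hk2 => hwk k hk1 hk2 M⟩
  have hcomp : IsCompact (KN K N) := hK.of_isClosed_subset (KN_closed K hK N) fun m hm => hm.1
  have h1 : (((hyperfilter ℕ).map w : Ultrafilter W) : Filter W) ≤ 𝓟 (KN K N) := by
    rw [le_principal_iff]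
    exact mem_map.2 (Filter.univ_mem' fun M => hwN M)
  obtain ⟨z, hz, hzl⟩ := hcomp.ultrafilter_le_nhds _ h1
  have hzt : Tendsto w (hyperfilter ℕ : Filter ℕ) (𝓝 z) := hzl
  have hzf : ∀ f, Tendsto (fun M => w M f) (hyperfilter ℕ : Filter ℕ) (𝓝 (z f)) := fun f =>
    ((eval_cont f).tendsto z).comp hzt
  refine ⟨z, hz.1, fun k hk1 hk2 => ?_⟩
  rcases Nat.lt_or_ge N k with h2 | h2
  · have h3 : k = N + 1 := by omega
    subst h3
    refine IsMean.ext' (isMean_dil _ (hmean _ hz.1)) (hmean _ hz.1) fun f hf => ?_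
    rw [dil_apply _ _ hf]
    obtain ⟨C, hC⟩ := id hf
    have h4 : Tendsto (fun M => w M (fun x => f ((N + 1) * x)) - w M f) (hyperfilter ℕ : Filter ℕ)
        (𝓝 (z (fun x => f ((N + 1) * x)) - z f)) := (hzf _).sub (hzf f)
    have h5 : Tendsto (fun M => w M (fun x => f ((N + 1) * x)) - w M f) atTop (𝓝 0) := by
      have h6 : ∀ M, w M (fun x => f ((N + 1) * x)) - w M f = (v (M + 1) f - v 0 f) / (M + 1) := by
        intro M
        rw [hwf, hwf, ← sub_div]
        congr 1
        rw [← Finset.sum_range_sub (fun i => v i f), ← Finset.sum_sub_distrib]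
        refine Finset.sum_congr rfl fun i _ => ?_
        rw [hvs i, dil_apply _ _ hf]
      have h7 : ∀ i, |v i f| ≤ C := fun i => (hmean _ (hvK i)).abs_le hC
      have h8 : Tendsto (fun M : ℕ => (2 * C) / ((M : ℝ) + 1)) atTop (𝓝 0) :=
        tendsto_const_nhds.div_atTop (tendsto_atTop_add_const_right _ _ tendsto_natCast_atTop_atTop)
      refine squeeze_zero_norm (fun M => ?_) h8
      rw [h6, norm_div, Real.norm_eq_abs, Real.norm_eq_abs, abs_of_pos (show (0 : ℝ) < (M : ℝ) + 1 by positivity)]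
      have h9 : |v (M + 1) f - v 0 f| ≤ 2 * C := by
        have := abs_sub (v (M + 1) f) (v 0 f)
        linarith [h7 (M + 1), h7 0]
      gcongr
    have h6 := tendsto_nhds_unique h4 (h5.mono_left Nat.hyperfilter_le_atTop)
    linarith
  · exact hz.2 k hk1 h2

theorem holds_MKF : StMKF := by
  intro K hne hK hmean hdil hav
  have h1 : ∀ N, (KN K N).Nonempty := by
    intro N
    induction N with
    | zero =>
      obtain ⟨m, hm⟩ := hne
      exact ⟨m, hm, fun n h1 h2 => by omega⟩
    | succ N ih => exact KN_step K hK hmean hdil hav N ih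
  have h2 : (⋂ N, KN K N).Nonempty := by
    apply IsCompact.nonempty_iInter_of_sequence_nonempty_isCompact_isClosed (KN K)
    · intro N m hm
      exact ⟨hm.1, fun n h3 h4 => hm.2 n h3 (by omega)⟩
    · exact h1
    · exact hK.of_isClosed_subset (KN_closed K hK 0) fun m hm => hm.1
    · exact KN_closed K hK
  obtain ⟨m, hm⟩ := h2
  rw [Set.mem_iInter] at hm
  exact ⟨m, (hm 0).1, fun n hn => (hm n).2 n hn le_rfl⟩

end Pool.Agent.Helper66.RS
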